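import Pool.Agent.Lib.TATE.Iface2

/-!
# PROJECT TATE: the family on a line (helper45)
-/

set_option autoImplicit false

open Topology Metric

noncomputable section

namespace TATE

open HC HC.CC SEJ

namespace FL

variable {p N : ℕ}

theorem bd_finite (s w : Fin p → ℂ) (hs : Function.Injective s) : (Bd s w).Finite := by
  have h : Bd s w ⊆ ⋃ i : Fin p, ⋃ j : Fin p, {z : ℂ | i ≠ j ∧ s i + z * w i = s j + z * w j} := by
    intro z hz
    unfold Bd at hz
    have hz' : ¬ Function.Injective (ln s w z) := hz
    rw [Function.Injective] at hz'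
    push Not at hz'
    obtain ⟨i, j, h1, h2⟩ := hz'
    exact Set.mem_iUnion.2 ⟨i, Set.mem_iUnion.2 ⟨j, h2, h1⟩⟩
  refine Set.Finite.subset (Set.finite_iUnion fun i => Set.finite_iUnion fun j => ?_) h
  refine Set.Subsingleton.finite ?_
  rintro z ⟨h1, h2⟩ z' ⟨-, h3⟩
  have h4 : (z - z') * (w i - w j) = 0 := by linear_combination h2 - h3
  rcases mul_eq_zero.1 h4 with h5 | h5
  · exact sub_eq_zero.1 h5
  · exfalso
    apply h1
    apply hs
    have h6 : w i = w j := sub_eq_zero.1 h5
    rw [h6] at h2
    exact add_right_cancel h2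

theorem t_inj {D : Dt p N} (h : D.ok) {s : Fin p → ℂ} (hs : Function.Injective s) (n : Fin N) :
    Function.Injective (D.t s n) := by
  intro a b hab
  unfold Dt.t at hab
  apply h.inj n
  apply hs
  cases hk : D.k n with
  | none =>
    rw [hk] at hab
    exact hab
  | some l =>
    rw [hk] at hab
    exact sub_left_injective (inv_injective hab)

theorem t_diff {D : Dt p N} (h : D.ok) {s w : Fin p → ℂ} {z : ℂ}
    (hz : Function.Injective (ln s w z)) (n : Fin N) :
    DifferentiableAt ℂ (fun z' => D.t (ln s w z') n) z := by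
  rw [differentiableAt_pi]
  intro j
  have hl : ∀ i : Fin p, DifferentiableAt ℂ (fun z' => ln s w z' i) z := by
    intro i
    unfold ln
    fun_prop
  unfold Dt.t
  cases hk : D.k n with
  | none => exact hl _
  | some l =>
    change DifferentiableAt ℂ (fun z' => (ln s w z' (D.i n j) - ln s w z' l)⁻¹) z
    refine DifferentiableAt.inv ((hl _).sub (hl _)) ?_
    intro h0
    have h1 := h.lt n l hk j
    have h2 : D.i n j = l := hz (sub_eq_zero.1 h0)
    exact absurd h1 (by rw [h2]; exact lt_irrefl _)

/-- a point of the curve -/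
theorem point {m r : ℕ} (b : Fin (r + 1) → ℕ) (t : Fin (r + 1) → ℂ) (hm : 1 ≤ m) :
    ∃ P, P ∈ Pts m b t := by
  obtain ⟨x, hx⟩ : ∃ x : ℂ, x ∉ Set.range t := by
    by_contra hcon
    push Not at hcon
    exact Set.infinite_univ ((Set.finite_range t).subset fun x _ => hcon x)
  obtain ⟨y, hy⟩ := IsAlgClosed.exists_pow_nat_eq (∏ j, (x - t j) ^ b j) (by omega : 0 < m)
  exact ⟨(x, y), hx, hy⟩

theorem zero_mem {m r : ℕ} (b : Fin (r + 1) → ℕ) (t : Fin (r + 1) → ℂ) (hm : 1 ≤ m) :
    (0 : Ix m b → ℂ) ∈ LQ m b t := by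
  obtain ⟨P, hP⟩ := point b t hm
  exact ⟨1, one_ne_zero, P, by rw [smul_zero]; exact Itg.refl P hP⟩

theorem lat {m r : ℕ} {b : Fin (r + 1) → ℕ} (Φ : FamD m b) {t t' : Fin (r + 1) → ℂ}
    (ht : Function.Injective t) (ht' : t' ∈ ball t (Φ.ρ t)) :
    Φ.τ t t' '' LQ m b t = LQ m b t' := by
  have h := Φ.latZ t ht t' ht'
  ext v
  constructor
  · rintro ⟨u, ⟨k, hk, hu⟩, rfl⟩
    refine ⟨k, hk, ?_⟩
    rw [← h]
    exact ⟨k • u, hu, map_nsmul (Φ.τ t t') k u⟩
  · rintro ⟨k, hk, hv⟩
    rw [← h] at hv
    obtain ⟨u, hu, hu'⟩ := hv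
    refine ⟨(Φ.τ t t').symm v, ⟨k, hk, ?_⟩, LinearEquiv.apply_symm_apply _ _⟩
    have h1 : k • (Φ.τ t t').symm v = u := by
      apply (Φ.τ t t').injective
      rw [map_nsmul, LinearEquiv.apply_symm_apply, hu']
    rw [h1]
    exact hu

section

variable (Φ : FF) (D : Dt p N) (h : D.ok) (s w : Fin p → ℂ)

/-- the local system of the factor `n` -/
def G (n : Fin N) : FamD (D.m n) (D.b n) := Φ _ _ _ (h.cv n)

theorem rad (hs : Function.Injective s) (z : ℂ) (hz : z ∉ Bd s w) : ∃ ε : ℝ, 0 < ε ∧
    ∀ z' ∈ ball z ε, z' ∉ Bd s w ∧ ∀ n,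
      D.t (ln s w z') n ∈ ball (D.t (ln s w z) n) ((G Φ D h n).ρ (D.t (ln s w z) n)) := by
  have hz' : Function.Injective (ln s w z) := not_not.1 hz
  have h1 : ∀ᶠ z' in 𝓝 z, z' ∉ Bd s w :=
    (bd_finite s w hs).isClosed.isOpen_compl.mem_nhds hz
  have h2 : ∀ᶠ z' in 𝓝 z, ∀ n,
      D.t (ln s w z') n ∈ ball (D.t (ln s w z) n) ((G Φ D h n).ρ (D.t (ln s w z) n)) := by
    rw [Filter.eventually_all]
    intro n
    exact (t_diff h hz' n).continuousAt (ball_mem_nhds _ ((G Φ D h n).rpos _ (t_inj h hz' n)))
  obtain ⟨ε, hε, hb⟩ := Metric.eventually_nhds_iff_ball.1 (h1.and h2)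
  exact ⟨ε, hε, hb⟩

/-- the Riemann form of the product -/
def EE (z : ℂ) : D.V →ₗ[ℝ] D.V →ₗ[ℝ] ℝ :=
  ∑ n, ((G Φ D h n).E (D.t (ln s w z) n)).compl₁₂
    (LinearMap.proj (R := ℝ) (φ := fun n => Ix (D.m n) (D.b n) → ℂ) n)
    (LinearMap.proj (R := ℝ) (φ := fun n => Ix (D.m n) (D.b n) → ℂ) n)

theorem EE_apply (z : ℂ) (u v : D.V) :
    EE Φ D h s w z u v = ∑ n, (G Φ D h n).E (D.t (ln s w z) n) (u n) (v n) := by
  unfold EE
  rw [LinearMap.sum_apply, LinearMap.sum_apply]
  rfl

/-- the transport of the product -/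
def TT (z z' : ℂ) : D.V ≃ₗ[ℝ] D.V :=
  LinearEquiv.piCongrRight fun n => (G Φ D h n).τ (D.t (ln s w z) n) (D.t (ln s w z') n)

theorem TT_apply (z z' : ℂ) (v : D.V) (n : Fin N) :
    TT Φ D h s w z z' v n = (G Φ D h n).τ (D.t (ln s w z) n) (D.t (ln s w z') n) (v n) := rfl

end

end FL

open FL

theorem tFL : StmtFL := by
  classical
  intro Φ p N D h s w hs
  refine ⟨bd_finite s w hs, ?_⟩
  choose! ε hε hb using rad Φ D h s w hs
  have hI : ∀ z, z ∉ Bd s w → Function.Injective (ln s w z) := fun z hz => not_not.1 hz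
  have hT : ∀ z, z ∉ Bd s w → ∀ n, Function.Injective (D.t (ln s w z) n) := fun z hz n =>
    t_inj h (hI z hz) n
  let M : Fml D.V (Bd s w) :=
    { L := fun z => D.L (ln s w z)
      E := EE Φ D h s w
      r := ε
      τ := TT Φ D h s w
      cnt := by
        intro z hz
        have h1 := Set.countable_univ_pi (fun n => (G Φ D h n).cnt _ (hT z hz n))
        refine h1.mono ?_
        intro v hv n _
        exact hv n
      spn := by
        intro z hz
        rw [eq_top_iff]
        intro v _
        have h1 : v = ∑ n, Pi.single n (v n) := (Finset.univ_sum_single v).symm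
        rw [h1]
        refine Submodule.sum_mem _ fun n _ => ?_
        have h2 : v n ∈ Submodule.span ℝ (LQ (D.m n) (D.b n) (D.t (ln s w z) n)) := by
          rw [(G Φ D h n).spn _ (hT z hz n)]
          exact Submodule.mem_top
        have h3 : ∀ x ∈ Submodule.span ℝ (LQ (D.m n) (D.b n) (D.t (ln s w z) n)),
            (Pi.single n x : D.V) ∈ Submodule.span ℝ (D.L (ln s w z)) := by
          intro x hx
          induction hx using Submodule.span_induction with
          | mem x hx =>
            refine Submodule.subset_span ?_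
            intro k
            by_cases hk : k = n
            · subst hk
              rw [Pi.single_eq_same]
              exact hx
            · rw [Pi.single_eq_of_ne hk]
              refine zero_mem _ _ ?_
              have := (h.cv k).1
              omega
          | zero =>
            rw [Pi.single_zero]
            exact Submodule.zero_mem _
          | add x y _ _ hx hy =>
            rw [Pi.single_add]
            exact Submodule.add_mem _ hx hy
          | smul a x _ hx =>
            have h4 : (Pi.single n (a • x) : D.V) = a • (Pi.single n x : D.V) := by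
              funext k
              by_cases hk : k = n
              · subst hk
                rw [Pi.smul_apply, Pi.single_eq_same, Pi.single_eq_same]
              · rw [Pi.smul_apply, Pi.single_eq_of_ne hk, Pi.single_eq_of_ne hk, smul_zero]
            rw [h4]
            exact Submodule.smul_mem _ _ hx
        exact h3 _ h2
      alt := by
        intro z hz u v
        rw [EE_apply, EE_apply, ← Finset.sum_neg_distrib]
        exact Finset.sum_congr rfl fun n _ => (G Φ D h n).alt _ (hT z hz n) _ _
      cpx := by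
        intro z hz u v
        rw [EE_apply, EE_apply]
        exact Finset.sum_congr rfl fun n _ => (G Φ D h n).cpx _ (hT z hz n) _ _
      pos := by
        intro z hz v hv
        rw [EE_apply]
        obtain ⟨n, hn⟩ : ∃ n, v n ≠ 0 := by
          by_contra hcon
          push Not at hcon
          exact hv (funext hcon)
        refine Finset.sum_pos' (fun k _ => ?_) ⟨n, Finset.mem_univ _, ?_⟩
        · by_cases hk : v k = 0
          · rw [Pi.smul_apply, hk, smul_zero, map_zero]
          · exact ((G Φ D h k).pos _ (hT z hz k) _ hk).le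
        · exact (G Φ D h n).pos _ (hT z hz n) _ hn
      rpos := hε
      dom := fun z hz z' hz' => (hb z hz z' hz').1
      one := by
        intro z hz v
        funext n
        rw [TT_apply]
        exact (G Φ D h n).one _ (hT z hz n) _
      lat := by
        intro z hz z' hz'
        have h1 : ∀ n, (G Φ D h n).τ (D.t (ln s w z) n) (D.t (ln s w z') n) ''
            LQ (D.m n) (D.b n) (D.t (ln s w z) n) = LQ (D.m n) (D.b n) (D.t (ln s w z') n) :=
          fun n => lat _ (hT z hz n) ((hb z hz z' hz').2 n)
        ext v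
        constructor
        · rintro ⟨u, hu, rfl⟩ n
          rw [← h1 n]
          exact ⟨u n, hu n, rfl⟩
        · intro hv
          have h2 : ∀ n, ∃ u ∈ LQ (D.m n) (D.b n) (D.t (ln s w z) n),
              (G Φ D h n).τ (D.t (ln s w z) n) (D.t (ln s w z') n) u = v n := by
            intro n
            have h3 := hv n
            rw [← h1 n] at h3
            exact h3
          choose u hu hu' using h2
          exact ⟨u, hu, funext hu'⟩
      iso := by
        intro z hz z' hz' u v
        rw [EE_apply, EE_apply]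
        exact Finset.sum_congr rfl fun n _ =>
          (G Φ D h n).iso _ (hT z hz n) _ ((hb z hz z' hz').2 n) _ _
      hol := by
        intro z hz v
        rw [differentiableOn_pi]
        intro n
        have h1 := (G Φ D h n).hol _ (hT z hz n) (v n)
        refine h1.comp (f := fun z' => D.t (ln s w z') n) ?_ fun z' hz' => (hb z hz z' hz').2 n
        intro z' hz'
        exact (t_diff h (hI z' (hb z hz z' hz').1) n).differentiableWithinAt }
  exact ⟨M, ⟨fun _ _ => rfl, fun z hz z' hz' n => (hb z hz z' hz').2 n, fun _ _ _ _ _ _ => rfl⟩⟩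

end TATE
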